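import Pool.Agent.W921.VP.DefsC

set_option autoImplicit false

namespace Pool.Agent.W214.VP

open FirstOrder Set
open FirstOrder.Language (Theory BoundedFormula)
open Pool.Agent.W921.VP

section

variable {L : FirstOrder.Language.{0, 0}}

/-- definable predicates -/
def Dfn (l : ℕ) (Q : L.Structure ℕ → (Fin l → ℕ) → Prop) : Prop :=
  ∃ φ : L.BoundedFormula Empty l, ∀ (S : L.Structure ℕ) (v : Fin l → ℕ),
    @BoundedFormula.Realize L ℕ S Empty l φ Empty.elim v ↔ Q S v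

theorem Dfn.congr {l : ℕ} {Q Q' : L.Structure ℕ → (Fin l → ℕ) → Prop} (h : Dfn l Q)
    (e : ∀ S v, Q S v ↔ Q' S v) : Dfn l Q' := by
  obtain ⟨φ, hφ⟩ := h
  exact ⟨φ, fun S v => (hφ S v).trans (e S v)⟩

theorem Dfn.not {l : ℕ} {Q : L.Structure ℕ → (Fin l → ℕ) → Prop} (h : Dfn l Q) :
    Dfn l (fun S v => ¬ Q S v) := by
  obtain ⟨φ, hφ⟩ := h
  refine ⟨φ.not, fun S v => ?_⟩
  let _ := S
  exact not_congr (hφ S v)

theorem Dfn.and {l : ℕ} {Q Q' : L.Structure ℕ → (Fin l → ℕ) → Prop} (h : Dfn l Q)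
    (h' : Dfn l Q') : Dfn l (fun S v => Q S v ∧ Q' S v) := by
  obtain ⟨φ, hφ⟩ := h
  obtain ⟨ψ, hψ⟩ := h'
  refine ⟨φ ⊓ ψ, fun S v => ?_⟩
  let _ := S
  rw [BoundedFormula.realize_inf]
  exact and_congr (hφ S v) (hψ S v)

theorem Dfn.const (l : ℕ) (p : Prop) : Dfn (L := L) l (fun _ _ => p) := by
  by_cases hp : p
  · refine ⟨⊤, fun S v => ?_⟩
    let _ := S
    rw [BoundedFormula.realize_top]
    exact ⟨fun _ => hp, fun _ => trivial⟩
  · refine ⟨⊥, fun S v => ?_⟩
    let _ := S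
    rw [BoundedFormula.realize_bot]
    exact ⟨fun h => h.elim, fun h => hp h⟩

theorem Dfn.iff {l : ℕ} {Q Q' : L.Structure ℕ → (Fin l → ℕ) → Prop} (h : Dfn l Q)
    (h' : Dfn l Q') : Dfn l (fun S v => (Q S v ↔ Q' S v)) := by
  obtain ⟨φ, hφ⟩ := h
  obtain ⟨ψ, hψ⟩ := h'
  refine ⟨φ.iff ψ, fun S v => ?_⟩
  let _ := S
  rw [BoundedFormula.realize_iff]
  exact iff_congr (hφ S v) (hψ S v)

theorem Dfn.all {l : ℕ} {ι : Type} [Finite ι] {Q : ι → L.Structure ℕ → (Fin l → ℕ) → Prop}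
    (h : ∀ i, Dfn l (Q i)) : Dfn l (fun S v => ∀ i, Q i S v) := by
  choose φ hφ using h
  refine ⟨BoundedFormula.iInf φ, fun S v => ?_⟩
  let _ := S
  rw [BoundedFormula.realize_iInf]
  exact forall_congr' fun i => hφ i S v

theorem Dfn.exi {l : ℕ} {ι : Type} [Finite ι] {Q : ι → L.Structure ℕ → (Fin l → ℕ) → Prop}
    (h : ∀ i, Dfn l (Q i)) : Dfn l (fun S v => ∃ i, Q i S v) := by
  refine (Dfn.not (Dfn.all fun i => (h i).not)).congr fun S v => ?_
  push Not
  rfl

theorem Dfn.ex {l : ℕ} {Q : L.Structure ℕ → (Fin (l + 1) → ℕ) → Prop} (h : Dfn (l + 1) Q) :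
    Dfn l (fun S v => ∃ x, Q S (Fin.snoc v x)) := by
  obtain ⟨φ, hφ⟩ := h
  refine ⟨φ.ex, fun S v => ?_⟩
  let _ := S
  rw [BoundedFormula.realize_ex]
  exact exists_congr fun x => hφ S _

theorem Dfn.fa {l : ℕ} {Q : L.Structure ℕ → (Fin (l + 1) → ℕ) → Prop} (h : Dfn (l + 1) Q) :
    Dfn l (fun S v => ∀ x, Q S (Fin.snoc v x)) := by
  obtain ⟨φ, hφ⟩ := h
  refine ⟨φ.all, fun S v => ?_⟩
  let _ := S
  rw [BoundedFormula.realize_all]
  exact forall_congr' fun x => hφ S _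

theorem Dfn.sub {k l : ℕ} {Q : L.Structure ℕ → (Fin k → ℕ) → Prop} (h : Dfn k Q)
    (w : Fin k → Fin l) : Dfn l (fun S v => Q S (v ∘ w)) := by
  obtain ⟨φ, hφ⟩ := h
  refine ⟨BoundedFormula.relabel (n := l) (k := 0)
    (Sum.elim (fun e : Empty => e.elim) (fun i => Sum.inr (w i))) φ.toFormula, fun S v => ?_⟩
  let _ := S
  show _ ↔ Q S (v ∘ w)
  rw [BoundedFormula.realize_relabel, ← hφ S (v ∘ w)]
  have e0 : (v ∘ Fin.natAdd l : Fin 0 → ℕ) =
      @default (Fin 0 → ℕ) Unique.instInhabited := Subsingleton.elim _ _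
  rw [e0]
  have := @BoundedFormula.realize_toFormula L ℕ S Empty k φ
    (Sum.elim Empty.elim (v ∘ Fin.castAdd 0) ∘
      Sum.elim (fun e : Empty => e.elim) (fun i => Sum.inr (w i)))
  rw [Language.Formula.Realize] at this
  refine this.trans ?_
  have e1 : ((Sum.elim Empty.elim (v ∘ Fin.castAdd 0) ∘
      Sum.elim (fun e : Empty => e.elim) (fun i => Sum.inr (w i))) ∘ Sum.inl : Empty → ℕ) =
      Empty.elim := Subsingleton.elim _ _
  rw [e1]
  rfl

theorem Dfn.eq {l : ℕ} (i j : Fin l) : Dfn (L := L) l (fun _ v => v i = v j) := by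
  refine ⟨eqF l i j, fun S v => ?_⟩
  let _ := S
  exact Iff.rfl

theorem Dfn.rel {l k : ℕ} (R : L.Relations k) (w : Fin k → Fin l) :
    Dfn l (fun S v => S.RelMap R (fun i => v (w i))) := by
  refine ⟨relF l R w, fun S v => ?_⟩
  let _ := S
  exact Iff.rfl

theorem Dfn.exs {l : ℕ} : ∀ (m : ℕ) {Q : L.Structure ℕ → (Fin (l + m) → ℕ) → Prop},
    Dfn (l + m) Q → Dfn l (fun S v => ∃ b : Fin m → ℕ, Q S (Fin.append v b))
  | 0, Q, h => by
      refine h.congr fun S v => ?_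
      constructor
      · intro hq
        refine ⟨Fin.elim0, ?_⟩
        rwa [Fin.append_elim0]
      · rintro ⟨b, hb⟩
        have : b = Fin.elim0 := Subsingleton.elim _ _
        rw [this, Fin.append_elim0] at hb
        exact hb
  | m + 1, Q, h => by
      have h1 : Dfn (l + m) (fun S v => ∃ x, Q S (Fin.snoc v x)) := Dfn.ex h
      refine (Dfn.exs m h1).congr fun S v => ?_
      constructor
      · rintro ⟨b, x, hb⟩
        refine ⟨Fin.snoc b x, ?_⟩
        rw [Fin.append_snoc]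
        exact hb
      · rintro ⟨b, hb⟩
        refine ⟨Fin.init b, b (Fin.last m), ?_⟩
        have e : b = Fin.snoc (Fin.init b) (b (Fin.last m)) := (Fin.snoc_init_self b).symm
        rw [e, Fin.append_snoc] at hb
        exact hb

theorem Dfn.twF (h : S_TWD) [L.IsRelational] (F : Finset (Sym L)) {l : ℕ} (i j : Fin l) :
    Dfn (L := L) l (fun S v => TwF S F (v i) (v j)) := by
  have h2 : ∀ R : {R : Sym L // R ∈ F},
      Dfn (L := L) l (fun S v => Tw S R.1.2 (v i) (v j)) := by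
    rintro ⟨R, hR⟩
    obtain ⟨φ, hφ⟩ := h L R.1 R.2
    have h0 : Dfn (L := L) 2 (fun S v => Tw S R.2 (v 0) (v 1)) := by
      refine ⟨φ, fun S v => ?_⟩
      have := hφ ℕ S (v 0) (v 1)
      have ev : ![v 0, v 1] = v := by
        funext q
        fin_cases q <;> rfl
      rw [ev] at this
      exact this
    exact (h0.sub ![i, j]).congr fun S v => Iff.rfl
  refine (Dfn.all h2).congr fun S v => ?_
  constructor
  · intro H R hR
    exact H ⟨R, hR⟩
  · intro H R
    exact H R.1 R.2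

end

theorem task (h : S_TWD) : S_PR2 := by
  intro L _ S S' n a a' hT F k m b
  -- the family of predicates
  have hEq : Dfn (L := L) (n + m) (fun S1 v => ∀ i j : Fin (n + m),
      ((Fin.append a b i = Fin.append a b j) ↔ (v i = v j))) := by
    refine Dfn.all fun i => Dfn.all fun j => ?_
    exact Dfn.iff (Dfn.const _ _) (Dfn.eq i j)
  have hTw : Dfn (L := L) (n + m) (fun S1 v => ∀ i j : Fin (n + m),
      (TwF S F (Fin.append a b i) (Fin.append a b j) ↔ TwF S1 F (v i) (v j))) := by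
    refine Dfn.all fun i => Dfn.all fun j => ?_
    exact Dfn.iff (Dfn.const _ _) (Dfn.twF h F i j)
  have hRel : Dfn (L := L) (n + m) (fun S1 v => ∀ R : {R : Sym L // R ∈ F},
      ∀ w : Fin R.1.1 → Fin (n + m),
      (S.RelMap R.1.2 (fun i => Fin.append a b (w i)) ↔ S1.RelMap R.1.2 (fun i => v (w i)))) := by
    refine Dfn.all fun R => Dfn.all fun w => ?_
    exact Dfn.iff (Dfn.const _ _) (Dfn.rel R.1.2 w)
  have hcard : ∀ (S1 : L.Structure ℕ) (t : ℕ) (y : ℕ),
      ((t : ℕ∞) ≤ Set.encard {x | TwF S1 F x y} ↔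
        ∃ d : Fin t → ℕ, (∀ p q : Fin t, (d p = d q ↔ p = q)) ∧ ∀ p, TwF S1 F (d p) y) := by
    intro S1 t y
    constructor
    · intro ht
      obtain ⟨s, hs, hc⟩ := Set.exists_subset_encard_eq ht
      have hfin : s.Finite := Set.finite_of_encard_eq_coe hc
      have hnc : s.ncard = t := by
        rw [Set.ncard, hc]; simp
      have hcard2 : hfin.toFinset.card = t := by
        rw [← Set.ncard_eq_toFinset_card s hfin]; exact hnc
      refine ⟨fun p => (hfin.toFinset.orderEmbOfFin hcard2 p), ?_, ?_⟩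
      · intro p q
        exact (hfin.toFinset.orderEmbOfFin hcard2).injective.eq_iff
      · intro p
        have := Finset.orderEmbOfFin_mem hfin.toFinset hcard2 p
        rw [Set.Finite.mem_toFinset] at this
        exact hs this
    · rintro ⟨d, hd, hd2⟩
      have hinj : Function.Injective d := fun p q hpq => (hd p q).mp hpq
      have h1 : (Set.range d).encard = t := by
        rw [← Set.image_univ, hinj.encard_image, Set.encard_univ]
        simp
      rw [← h1]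
      apply Set.encard_le_encard
      rintro _ ⟨p, rfl⟩
      exact hd2 p
  have hSz0 : ∀ (t : ℕ) (i : Fin (n + m)), Dfn (L := L) (n + m)
      (fun S1 v => (t : ℕ∞) ≤ Set.encard {x | TwF S1 F x (v i)}) := by
    intro t i
    have h1 : Dfn (L := L) ((n + m) + t) (fun S1 v =>
        (∀ p q : Fin t, ((v (Fin.natAdd (n + m) p) = v (Fin.natAdd (n + m) q)) ↔ p = q)) ∧
        ∀ p : Fin t, TwF S1 F (v (Fin.natAdd (n + m) p)) (v (Fin.castAdd t i))) := by
      refine Dfn.and ?_ ?_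
      · exact Dfn.all fun p => Dfn.all fun q => Dfn.iff (Dfn.eq _ _) (Dfn.const _ _)
      · exact Dfn.all fun p => Dfn.twF h F _ _
    refine (Dfn.exs t h1).congr fun S1 v => ?_
    rw [hcard]
    simp only [Fin.append_left, Fin.append_right]
  have hSz : Dfn (L := L) (n + m) (fun S1 v => ∀ i : Fin (n + m), ∀ t : Fin (k + 1),
      ((((t : ℕ) : ℕ∞) ≤ Set.encard {x | TwF S F x (Fin.append a b i)}) ↔
        (((t : ℕ) : ℕ∞) ≤ Set.encard {x | TwF S1 F x (v i)}))) := by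
    refine Dfn.all fun i => Dfn.all fun t => ?_
    exact Dfn.iff (Dfn.const _ _) (hSz0 _ _)
  have hCov : Dfn (L := L) (n + m) (fun S1 v =>
      ((∀ x, ∃ i, TwF S F x (Fin.append a b i)) ↔ (∀ x, ∃ i : Fin (n + m), TwF S1 F x (v i)))) := by
    refine Dfn.iff (Dfn.const _ _) ?_
    have h1 : Dfn (L := L) ((n + m) + 1) (fun S1 v =>
        ∃ i : Fin (n + m), TwF S1 F (v (Fin.last (n + m))) (v (Fin.castSucc i))) :=
      Dfn.exi fun i => Dfn.twF h F _ _
    refine (Dfn.fa h1).congr fun S1 v => ?_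
    simp only [Fin.snoc_last, Fin.snoc_castSucc]
  have hAll := (((hEq.and hTw).and hRel).and hSz).and hCov
  obtain ⟨χ, hχ⟩ := Dfn.exs m hAll
  have hS : @BoundedFormula.Realize L ℕ S Empty n χ Empty.elim a := by
    rw [hχ S a]
    refine ⟨b, ⟨⟨⟨?_, ?_⟩, ?_⟩, ?_⟩, ?_⟩
    · intro i j; exact Iff.rfl
    · intro i j; exact Iff.rfl
    · intro R w; exact Iff.rfl
    · intro i t; exact Iff.rfl
    · exact Iff.rfl
  have hS' := (hT χ).mp hS
  rw [hχ S' a'] at hS'
  obtain ⟨b', ⟨⟨⟨h1, h2⟩, h3⟩, h4⟩, h5⟩ := hS'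
  refine ⟨b', ⟨?_, ?_, ?_, ?_, ?_⟩⟩
  · exact h1
  · exact h2
  · intro R hR w
    exact h3 ⟨R, hR⟩ w
  · intro i t ht
    exact h4 i ⟨t, by omega⟩
  · exact h5

end Pool.Agent.W214.VP
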